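import Pool.Agent.Work.MP_2b9663_nt.Ch.DefsChar
import Pool.Agent.Work.MP_2b9663_nt.Nf.DefsT

set_option autoImplicit false

/-!
Twists by Artin representations: an inequality in terms of the mean square of the traces, and twists
without exceptions.
-/

namespace Pool.Agent.Work.MP_2b9663_nt

open NumberField Filter Topology

/-- `θ` bounds the mean value of the squares of the absolute values of the normalised traces
`t p 1 / p ^ (i / 2)`: either `θ = b ^ 2` for the bound `b` of the traces; or the `L`-function of the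
traces `|t p k| ^ 2` (of the tensor product of the system with its dual, up to a twist) extends
meromorphically to a neighbourhood of `i + 1`, and has the order `-θ` there; or `θ = d ^ 2 * r` and the
normalised trace at `p` is at most `d` times the absolute value of the sum of the traces at `p` of `r`
different eigenforms: for instance `t` belongs to `U ⊗ (f₁ + … + f_r)`, with a representation `U` of
dimension `d`, as for the part `H ^ (i - 1) (Y) ⊗ H ^ 1 (E)` of `H ^ i (Y × E)`, `d` the Betti number of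
`Y` of degree `i - 1` and `r = 1`. -/
def MeanSquare (G : Nat.Primes → Prop) (t : Nat.Primes → ℕ → ℂ) (i : ℕ) (b θ : ℝ) : Prop :=
  θ = b ^ 2 ∨
  (∃ (F : ℂ → ℂ) (M : ℤ), IsEuler G (fun p k => ((‖t p k‖ ^ 2 : ℝ) : ℂ)) (2 * i) F ∧
    MeromorphicAt F (((2 * i : ℕ) : ℂ) / 2 + 1) ∧
    meromorphicOrderAt F (((2 * i : ℕ) : ℂ) / 2 + 1) = -M ∧ θ = M) ∨
  ∃ (r : ℕ) (f : Fin r → Eigenform) (d : ℝ), (∀ j j', j ≠ j' → (f j).Differ (f j')) ∧
    (∀ p : Nat.Primes, G p → ‖t p 1‖ ≤
      d * ‖∑ j, (f j).trace (p : ℕ) 1‖ * Real.sqrt ((p : ℕ) : ℝ) ^ i) ∧ θ = d ^ 2 * r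

/-- The traces of the powers of the Frobenius elements on the representation of the eigenform `f`,
normalised to have weight `i`. For the eigenform of an elliptic curve `E` over `ℚ` and `i = 1` these
are the traces on `H ^ 1 (E)`. -/
noncomputable def Eigenform.system (f : Eigenform) (i : ℕ) (p : Nat.Primes) (k : ℕ) : ℂ :=
  f.trace (p : ℕ) k * ((Real.sqrt (((p : ℕ) : ℝ) ^ k) ^ i : ℝ) : ℂ)

/-- `c p` tends to zero in the mean: the quotient of the sum of `c p * p ^ (-1-ε)` over all primes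
`p` and of `log (1 / ε)` tends to `0` as `ε` tends to `0` from above. -/
def MeanZero (c : Nat.Primes → ℝ) : Prop :=
  Tendsto (fun ε : ℝ => (∑' p : Nat.Primes, c p * ((p : ℕ) : ℝ) ^ (-(1 + ε))) / (-Real.log ε))
    (𝓝[>] 0) (𝓝 0)

section

variable {Ω : Type} [Field Ω] [CharZero Ω]

/-- the mean value of the real function `f` of level `L` -/
noncomputable def meanReal (L : IntermediateField ℚ Ω) (f : (Ω ≃ₐ[ℚ] Ω) → ℝ) : ℝ :=
  (meanAt L fun g => (f g : ℂ)).re

/-- `m` is the order at `s₀` of `t` twisted by the virtual character `φ`: it is `φ = ∑ c j * φ j`, with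
integers `c j` and characters `φ j` of Artin representations or of number fields such that the
`L`-function of `t` twisted by `φ j` extends, with the order `n j` at `s₀`, and `m = ∑ c j * n j` is the
order of the product of the powers of these `L`-functions with the exponents `c j`. -/
def OrdVirt (G : Nat.Primes → Prop) (t : Nat.Primes → ℕ → ℂ) (i : ℕ) (φ : (Ω ≃ₐ[ℚ] Ω) → ℂ)
    (m : ℤ) : Prop :=
  ∃ (k : ℕ) (ψ : Fin k → (Ω ≃ₐ[ℚ] Ω) → ℂ) (n c : Fin k → ℤ), (∀ j, OrdChar G t i (ψ j) (n j)) ∧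
    (∀ g, φ g = ∑ j, (c j : ℂ) * ψ j g) ∧ m = ∑ j, c j * n j

variable (Ω)

/-- **The inequality.** Let `φ = ∑ c j * φ j` with complex numbers `c j` and virtual characters `φ j`
such that `t` twisted by `φ j` has the order `m j` at `s₀`, and let `ψ` be any class function, both of
level `L`. Then `|∑ c j * m j| ≤ (θ * M(|ψ| ^ 2)) ^ (1 / 2) + b * M(|φ - ψ|)`, where `M` denotes the mean
value over `Gal(L/ℚ)`. -/
def ClassBound (G : Nat.Primes → Prop) (t : Nat.Primes → ℕ → ℂ) (i : ℕ) (b θ : ℝ) : Prop :=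
  ∀ (L : IntermediateField ℚ Ω) [NumberField L] [IsGalois ℚ L] (ι : Type) (s : Finset ι)
    (φ : ι → (Ω ≃ₐ[ℚ] Ω) → ℂ) (m : ι → ℤ) (c : ι → ℂ) (ψ : (Ω ≃ₐ[ℚ] Ω) → ℂ),
    (∀ j ∈ s, OrdVirt G t i (φ j) (m j)) → Lvl L (fun g => ∑ j ∈ s, c j * φ j g) → Lvl L ψ →
    IsCl ψ →
    ‖∑ j ∈ s, c j * m j‖ ≤ Real.sqrt (θ * meanReal L fun g => ‖ψ g‖ ^ 2) +
      b * meanReal L fun g => ‖∑ j ∈ s, c j * φ j g - ψ g‖

/-- **Number fields.** If the `L`-functions of `t` over `ℚ` and over a number field `K` of degree `n`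
and rank `r` extend, so that `m` is the difference of their orders at `s₀`, then `m ^ 2 ≤ θ * (r - 1)`,
and `m ^ 2 < θ * (r - 1)` if `b ^ 2 * (r - 1) < θ * (n - 1) ^ 2`. The rank `embRank` of a number field
is the number of orbits of the automorphisms of `Ω` on the pairs of embeddings; for `K ≠ ℚ` it is two
if and only if the Galois group is doubly transitive. -/
def FieldBound (G : Nat.Primes → Prop) (t : Nat.Primes → ℕ → ℂ) (i : ℕ) (b θ : ℝ) : Prop :=
  ∀ (K : IntermediateField ℚ Ω) [NumberField K] (m : ℤ),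
    OrdVirt G t i (fun g => (fixEmb K Ω g : ℂ) - 1) m →
    (m : ℝ) ^ 2 ≤ θ * (embRank K Ω - 1) ∧
      (b ^ 2 * (embRank K Ω - 1) < θ * (Module.finrank ℚ K - 1) ^ 2 →
        (m : ℝ) ^ 2 < θ * (embRank K Ω - 1))

/-- **Frobenius fields.** Let `K` be a number field such that the images of any two different
embeddings of `K` in `Ω` generate the same Galois extension `L` of `ℚ`, and
`2 b ([K : ℚ] - 1) < [L : ℚ]`. Then the `L`-function of `t` over `K` has the same order at `s₀` as the
`L`-function of `t`. For instance, `K` has prime degree, `L` is solvable and `[L : K] ≥ 2 b`. -/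
def FrobeniusOrders (G : Nat.Primes → Prop) (t : Nat.Primes → ℕ → ℂ) (i b : ℕ) : Prop :=
  ∀ (K L : IntermediateField ℚ Ω) [NumberField K] [NumberField L] [IsGalois ℚ L] (m : ℤ),
    (∀ σ τ : K →ₐ[ℚ] Ω, σ ≠ τ → σ.fieldRange ⊔ τ.fieldRange = L) →
    2 * b * (Module.finrank ℚ K - 1) < Module.finrank ℚ L →
    OrdVirt G t i (fun g => (fixEmb K Ω g : ℂ) - 1) m → m = 0

/-- **Pure fields.** If `q > 2 b` is a prime number and the rational number `c` is no `q`-th power,
then the `L`-function of `t` over `K = ℚ(c ^ (1 / q))` has the same order at `s₀` as the `L`-function of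
`t`. -/
def PureOrders (G : Nat.Primes → Prop) (t : Nat.Primes → ℕ → ℂ) (i b : ℕ) : Prop :=
  ∀ (K : IntermediateField ℚ Ω) [NumberField K] (m : ℤ) (q : ℕ) (c : ℚ) (α : Ω),
    q.Prime → 2 * b < q → (∀ a : ℚ, a ^ q ≠ c) → α ^ q = (c : Ω) →
    K = IntermediateField.adjoin ℚ {α} → OrdVirt G t i (fun g => (fixEmb K Ω g : ℂ) - 1) m → m = 0

/-- **Eigenforms.** For every eigenform `f` there is at most one irreducible Artin character `χ` such
that `f` twisted by `χ` has an order `m ≠ 0` at `s₀`. If there is one, its dimension is at most two,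
`m` is `1` or `-1`, and the normalised traces `f.trace p 1` of `f` satisfy
`|f.trace p 1 + m * χ (Fr p)| ^ 2 → 0` in the mean, for all choices of Frobenius elements `Fr p`. The
`L`-function of `f` over a number field `K` of degree at least four and rank at most two has the same
order at `s₀` as the `L`-function of `f`. -/
def EigenformOrders (f : Eigenform) (i : ℕ) : Prop :=
  {χ | IsIrrChar (⊤ : IntermediateField ℚ Ω) χ ∧
    ∃ m : ℤ, OrdVirt (fun _ => True) (f.system i) i χ m ∧ m ≠ 0}.encard ≤ 1 ∧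
  (∀ (R : ArtinRep Ω) (m : ℤ), R.Irr → OrdVirt (fun _ => True) (f.system i) i R.char m → m ≠ 0 →
    R.n ≤ 2 ∧ |m| = 1 ∧ ∀ Fr : Nat.Primes → (Ω ≃ₐ[ℚ] Ω), (∀ p : Nat.Primes, IsFrob (p : ℕ) (Fr p)) →
      MeanZero fun p => ‖f.trace (p : ℕ) 1 + m * R.char (Fr p)‖ ^ 2) ∧
  ∀ (K : IntermediateField ℚ Ω) [NumberField K] (m : ℤ), embRank K Ω ≤ 2 →
    4 ≤ Module.finrank ℚ K →
    OrdVirt (fun _ => True) (f.system i) i (fun g => (fixEmb K Ω g : ℂ) - 1) m → m = 0

end

end Pool.Agent.Work.MP_2b9663_nt
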