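import Pool.Agent.Work.MP_2b9663_nt.Ar.Square
import Pool.Agent.Work.MP_2b9663_nt.Ar.Defs
import Pool.Agent.Work.MP_2b9663_nt.Nf.Family
import Pool.Agent.Work.MP_2b9663_nt.Pure

set_option autoImplicit false

/-!
Mean square bounds for the orders of twists by Artin representations: the theorems.
-/

namespace Pool.Agent.Work.MP_2b9663_nt

open NumberField Filter Topology ComplexConjugate

section

variable {G : Nat.Primes → Prop} {t : Nat.Primes → ℕ → ℂ} {i : ℕ}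

lemma nt_sq (p : Nat.Primes) :
    ((‖nt G t i p‖ ^ 2 : ℝ) : ℂ) = nt G (fun p k => ((‖t p k‖ ^ 2 : ℝ) : ℂ)) (2 * i) p := by
  unfold nt
  split_ifs with hG
  · rw [norm_div, Complex.norm_real, Real.norm_of_nonneg (pow_nonneg (Real.sqrt_nonneg _) _),
      div_pow, ← pow_mul, mul_comm i 2, Complex.ofReal_div]
  · simp

lemma weil_sq {b : ℝ} (h : WeilBound G t i b) :
    WeilBound G (fun p k => ((‖t p k‖ ^ 2 : ℝ) : ℂ)) (2 * i) (b ^ 2) := by
  intro p hp k hk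
  have h1 := h p hp k hk
  rw [Complex.norm_real, Real.norm_of_nonneg (sq_nonneg _)]
  calc ‖t p k‖ ^ 2 ≤ (b * Real.sqrt (((p : ℕ) : ℝ) ^ k) ^ i) ^ 2 :=
        pow_le_pow_left₀ (norm_nonneg _) h1 2
    _ = b ^ 2 * Real.sqrt (((p : ℕ) : ℝ) ^ k) ^ (2 * i) := by
        rw [mul_pow, ← pow_mul, mul_comm i 2]

lemma MVo_const (x : ℝ) : MVo (fun _ => x) x := by
  have := (MVC.const (x : ℂ)).re
  simpa using this

/-- the mean square of the sum of different eigenforms -/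
lemma mvo_forms {r : ℕ} (f : Fin r → Eigenform) (h : ∀ j j', j ≠ j' → (f j).Differ (f j')) :
    MVo (fun p : Nat.Primes => ‖∑ j, (f j).trace (p : ℕ) 1‖ ^ 2) r := by
  have h1 := Nf.WF_LA Finset.univ (fun _ : Fin r => (1 : ℝ)) f fun j _ j' _ hj => h j j' hj
  have h2 : ∑ j : Fin r, (1 : ℝ) ^ 2 = r := by simp
  have h3 : (fun p : Nat.Primes => ‖Nf.WF Finset.univ (fun _ : Fin r => (1 : ℝ)) f p‖ ^ 2) =
      fun p : Nat.Primes => ‖∑ j, (f j).trace (p : ℕ) 1‖ ^ 2 := by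
    funext p
    unfold Nf.WF
    simp
  rw [h2, h3] at h1
  refine MV.toMVo ⟨⟨(2 * r) ^ 2, fun p => ?_⟩, h1⟩
  rw [abs_of_nonneg (by positivity)]
  have h4 := Nf.norm_WF_le Finset.univ (fun _ : Fin r => (1 : ℝ)) f (q := (p : ℕ)) p.2.one_lt.ne'
    p.2.ne_zero
  unfold Nf.WF at h4
  refine pow_le_pow_left₀ (norm_nonneg _) ?_ 2
  simpa using h4

/-- the mean square of the normalised traces -/
theorem MeanSquare.mvo {b : ℝ} (hb : 0 ≤ b) (h : WeilBound G t i b) {θ : ℝ}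
    (hθ : MeanSquare G t i b θ) :
    ∃ d : Nat.Primes → ℝ, MVo d θ ∧ ∀ p, ‖nt G t i p‖ ^ 2 ≤ d p := by
  rcases hθ with rfl | ⟨F, M, hE, hm, ho, rfl⟩ | ⟨r, f, e, hne, hf, rfl⟩
  · exact ⟨fun _ => b ^ 2, MVo_const _, fun p => pow_le_pow_left₀ (norm_nonneg _)
      (nt_norm_le hb h p) 2⟩
  · have hs : (((2 * i : ℕ) : ℂ)) / 2 + 1 + Complex.I * ((0 : ℝ) : ℂ) =
        ((2 * i : ℕ) : ℂ) / 2 + 1 := by
      rw [Complex.ofReal_zero, mul_zero, add_zero]
    obtain ⟨n, hn, hmv⟩ := order_c (y := 0) (sq_nonneg b) (weil_sq h) (F := F)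
      (by rw [hs]; exact hE) (by rw [hs]; exact hm)
    rw [hs, ho] at hn
    have h1 : n = -M := by exact_mod_cast hn.symm
    refine ⟨fun p => ‖nt G t i p‖ ^ 2, ?_, fun p => le_rfl⟩
    have h2 := hmv.re
    rw [h1] at h2
    have h3 : (-((-M : ℤ) : ℂ)).re = (M : ℝ) := by
      push_cast
      rw [neg_neg, Complex.intCast_re]
    rw [h3] at h2
    refine h2.congr ∅ fun p _ => ?_
    rw [pw_zero, mul_one, ← nt_sq, Complex.ofReal_re]
  · refine ⟨_, (mvo_forms f hne).const_mul (e ^ 2), fun p => ?_⟩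
    rw [← mul_pow]
    unfold nt
    split_ifs with hG
    · have h0 : (0 : ℝ) < ((p : ℕ) : ℝ) := by exact_mod_cast p.2.pos
      have h3 : 0 < Real.sqrt ((p : ℕ) : ℝ) ^ i := pow_pos (Real.sqrt_pos.mpr h0) i
      have h4 := hf p hG
      rw [norm_div, Complex.norm_real, Real.norm_of_nonneg h3.le]
      refine pow_le_pow_left₀ (div_nonneg (norm_nonneg _) h3.le) ?_ 2
      rw [div_le_iff₀ h3]
      exact h4
    · rw [norm_zero, zero_pow two_ne_zero]
      exact sq_nonneg _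

end

section

variable {Ω : Type} [Field Ω] [CharZero Ω] [IsAlgClosure ℚ Ω]

variable {G : Nat.Primes → Prop} {t : Nat.Primes → ℕ → ℂ} {i b : ℕ}

/-- a common level -/
lemma exists_level_char {ι : Type} (s : Finset ι) (φ : ι → (Ω ≃ₐ[ℚ] Ω) → ℂ)
    (h : ∀ j ∈ s, ∃ L : IntermediateField ℚ Ω, NumberField L ∧ IsGalois ℚ L ∧ Lvl L (φ j)) :
    ∃ L : IntermediateField ℚ Ω, NumberField L ∧ IsGalois ℚ L ∧ ∀ j ∈ s, Lvl L (φ j) := by
  classical
  induction s using Finset.induction_on with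
  | empty =>
    have h1 : NumberField (⊥ : IntermediateField ℚ Ω) :=
      NumberField.of_ringEquiv ℚ (⊥ : IntermediateField ℚ Ω)
        (IntermediateField.botEquiv ℚ Ω).toRingEquiv.symm
    exact ⟨NC ⊥, nc_nf _, nc_gal _, fun j hj => absurd hj (Finset.notMem_empty j)⟩
  | insert j s hj ih =>
    obtain ⟨L, h1, h2, h3⟩ := ih fun k hk => h k (Finset.mem_insert_of_mem hk)
    obtain ⟨M, h4, h5, h6⟩ := h j (Finset.mem_insert_self j s)
    obtain ⟨h7, h8⟩ := exists_gal_sup L M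
    refine ⟨L ⊔ M, h7, h8, fun k hk => ?_⟩
    rcases Finset.mem_insert.1 hk with rfl | hk
    · exact h6.mono le_sup_right
    · exact (h3 k hk).mono le_sup_left

/-! ### Virtual characters -/

/-- the level of a virtual character -/
lemma OrdVirt.level {φ : (Ω ≃ₐ[ℚ] Ω) → ℂ} {m : ℤ} (hm : OrdVirt G t i φ m) :
    ∃ L : IntermediateField ℚ Ω, NumberField L ∧ IsGalois ℚ L ∧ Lvl L φ := by
  obtain ⟨k, ψ, n, c, h1, h2, -⟩ := hm
  obtain ⟨L, h3, h4, h5⟩ := exists_level_char Finset.univ ψ fun j _ => (h1 j).level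
  refine ⟨L, h3, h4, ?_⟩
  have h6 : φ = fun g => ∑ j, (c j : ℂ) * ψ j g := funext h2
  rw [h6]
  exact Lvl.sum _ fun j hj => (h5 j hj).comp fun z => (c j : ℂ) * z

omit [IsAlgClosure ℚ Ω] in
lemma OrdVirt.isCl {φ : (Ω ≃ₐ[ℚ] Ω) → ℂ} {m : ℤ} (hm : OrdVirt G t i φ m) : IsCl φ := by
  obtain ⟨k, ψ, n, c, h1, h2, -⟩ := hm
  have h6 : φ = fun g => ∑ j, (c j : ℂ) * ψ j g := funext h2
  rw [h6]
  exact IsCl.sum _ fun j _ => (h1 j).isCl.comp fun z => (c j : ℂ) * z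

/-- the mean value attached to the order -/
lemma OrdVirt.mvc (h : WeilBound G t i b) {φ : (Ω ≃ₐ[ℚ] Ω) → ℂ} {m : ℤ}
    (hm : OrdVirt G t i φ m) {Fr : Nat.Primes → (Ω ≃ₐ[ℚ] Ω)}
    (hFr : ∀ p : Nat.Primes, IsFrob (p : ℕ) (Fr p)) :
    MVC (fun p => nt G t i p * conj (φ (Fr p))) (-(m : ℂ)) := by
  obtain ⟨k, ψ, n, c, h1, h2, rfl⟩ := hm
  have h3 : MVC (fun p => ∑ j, (c j : ℂ) * (nt G t i p * conj (ψ j (Fr p))))
      (∑ j, (c j : ℂ) * (-(n j : ℂ))) :=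
    MVC.sum Finset.univ fun j _ => ((h1 j).mvc h hFr).const_mul _
  have h4 : ∑ j, (c j : ℂ) * (-(n j : ℂ)) = -((∑ j, c j * n j : ℤ) : ℂ) := by
    push_cast
    rw [← Finset.sum_neg_distrib]
    exact Finset.sum_congr rfl fun j _ => by ring
  rw [h4] at h3
  refine h3.congr ∅ fun p _ => ?_
  rw [h2, map_sum, Finset.mul_sum]
  refine Finset.sum_congr rfl fun j _ => ?_
  rw [map_mul, map_intCast]
  ring

omit [IsAlgClosure ℚ Ω] in
/-- a character is a virtual character -/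
lemma OrdChar.virt {φ : (Ω ≃ₐ[ℚ] Ω) → ℂ} {m : ℤ} (hm : OrdChar G t i φ m) :
    OrdVirt G t i φ m :=
  ⟨1, fun _ => φ, fun _ => m, fun _ => 1, fun _ => hm, fun g => by simp, by simp⟩

/-- the mean value attached to a combination -/
lemma family_mvc (h : WeilBound G t i b) {ι : Type} (s : Finset ι) (φ : ι → (Ω ≃ₐ[ℚ] Ω) → ℂ)
    (m : ι → ℤ) (c : ι → ℂ) (hm : ∀ j ∈ s, OrdVirt G t i (φ j) (m j))
    {Fr : Nat.Primes → (Ω ≃ₐ[ℚ] Ω)} (hFr : ∀ p : Nat.Primes, IsFrob (p : ℕ) (Fr p)) :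
    MVC (fun p => nt G t i p * conj ((fun g => ∑ j ∈ s, c j * φ j g) (Fr p)))
      (∑ j ∈ s, conj (c j) * (-(m j : ℂ))) ∧
      ‖∑ j ∈ s, conj (c j) * (-(m j : ℂ))‖ = ‖∑ j ∈ s, c j * (m j : ℂ)‖ := by
  have h1 : MVC (fun p => ∑ j ∈ s, conj (c j) * (nt G t i p * conj (φ j (Fr p))))
      (∑ j ∈ s, conj (c j) * (-(m j : ℂ))) :=
    MVC.sum s fun j hj => ((hm j hj).mvc h hFr).const_mul _
  refine ⟨h1.congr ∅ fun p _ => ?_, ?_⟩
  · beta_reduce
    rw [map_sum, Finset.mul_sum]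
    refine Finset.sum_congr rfl fun j _ => ?_
    rw [map_mul]
    ring
  · have e : ∑ j ∈ s, conj (c j) * (-(m j : ℂ)) = -conj (∑ j ∈ s, c j * (m j : ℂ)) := by
      rw [map_sum, ← Finset.sum_neg_distrib]
      refine Finset.sum_congr rfl fun j _ => ?_
      rw [map_mul, map_intCast]
      ring
    rw [e, norm_neg, RCLike.norm_conj]

/-- **The inequality.** -/
theorem classBound (h : WeilBound G t i b) {θ : ℝ} (hθ : MeanSquare G t i b θ) :
    ClassBound Ω G t i b θ := by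
  intro L _ _ ι s φ m c ψ hm hL hL' hψ
  obtain ⟨Fr, hFr⟩ := exists_frobs (Ω := Ω)
  obtain ⟨d, hd, had⟩ := hθ.mvo (Nat.cast_nonneg b) h
  have hcl : IsCl (fun g => ∑ j ∈ s, c j * φ j g) :=
    IsCl.sum s fun j hj => (hm j hj).isCl.comp fun z => c j * z
  obtain ⟨h1, h2⟩ := family_mvc h s φ m c hm hFr
  have h3 := sharp_class (fun p => nt_norm_le (Nat.cast_nonneg b) h p) hd had Fr hFr L hL hcl hL' hψ h1
  rw [h2] at h3
  exact h3

/-- the square inequality with the case of equality -/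
theorem family_square (h : WeilBound G t i b) {θ : ℝ} (hθ : MeanSquare G t i b θ) {ι : Type}
    (s : Finset ι) (φ : ι → (Ω ≃ₐ[ℚ] Ω) → ℂ) (m : ι → ℤ) (c : ι → ℂ)
    (hm : ∀ j ∈ s, OrdVirt G t i (φ j) (m j)) {N : ℝ} (L : IntermediateField ℚ Ω) [NumberField L]
    [IsGalois ℚ L] (hL : Lvl L fun g => ∑ j ∈ s, c j * φ j g)
    (hN : meanAt L (fun g => (∑ j ∈ s, c j * φ j g) * conj (∑ j ∈ s, c j * φ j g)) = N) :
    ‖∑ j ∈ s, c j * m j‖ ^ 2 ≤ θ * N ∧
      ((∃ g, (b : ℝ) ^ 2 * N < θ * ‖∑ j ∈ s, c j * φ j g‖ ^ 2) →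
        ‖∑ j ∈ s, c j * m j‖ ^ 2 < θ * N) := by
  obtain ⟨Fr, hFr⟩ := exists_frobs (Ω := Ω)
  obtain ⟨d, hd, had⟩ := hθ.mvo (Nat.cast_nonneg b) h
  have hcl : IsCl (fun g => ∑ j ∈ s, c j * φ j g) :=
    IsCl.sum s fun j hj => (hm j hj).isCl.comp fun z => c j * z
  obtain ⟨h1, h2⟩ := family_mvc h s φ m c hm hFr
  have h3 := square_class (Nat.cast_nonneg b) (fun p => nt_norm_le (Nat.cast_nonneg b) h p) hd ∅
    (fun p _ => had p) Fr hFr L hL hcl h1 hN
  rw [h2] at h3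
  exact h3

/-- the inner product of a combination of irreducible characters with itself -/
lemma inner_irr (s : Finset ((Ω ≃ₐ[ℚ] Ω) → ℂ)) (c : ((Ω ≃ₐ[ℚ] Ω) → ℂ) → ℂ)
    (hs : ∀ χ ∈ s, IsIrrChar (⊤ : IntermediateField ℚ Ω) χ) (L : IntermediateField ℚ Ω)
    [NumberField L] [IsGalois ℚ L] (hL : ∀ χ ∈ s, Lvl L χ) :
    meanAt L (fun g => (∑ χ ∈ s, c χ * χ g) * conj (∑ χ ∈ s, c χ * χ g)) =
      ∑ χ ∈ s, c χ * conj (c χ) := by
  classical
  have hfq := finite_quot L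
  have e1 : (fun g => (∑ χ ∈ s, c χ * χ g) * conj (∑ χ ∈ s, c χ * χ g)) =
      fun g => ∑ χ ∈ s, ∑ ψ ∈ s, (c χ * conj (c ψ)) * (χ g * conj (ψ g)) := by
    funext g
    rw [map_sum, Finset.sum_mul_sum]
    refine Finset.sum_congr rfl fun χ _ => Finset.sum_congr rfl fun ψ _ => ?_
    rw [map_mul]
    ring
  rw [e1, meanAt_sum L s fun χ g => ∑ ψ ∈ s, (c χ * conj (c ψ)) * (χ g * conj (ψ g))]
  refine Finset.sum_congr rfl fun χ hχ => ?_
  rw [meanAt_sum L s fun ψ g => (c χ * conj (c ψ)) * (χ g * conj (ψ g)), Finset.sum_eq_single χ]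
  · obtain ⟨R, hR, -, hRχ⟩ := hs χ hχ
    have h1 := hL χ hχ
    rw [← hRχ] at h1
    rw [meanAt_const_mul, ← hRχ, (char_orth R R hR hR L h1 h1).1 rfl, mul_one]
  · intro ψ hψ hne
    obtain ⟨R, hR, -, hRχ⟩ := hs χ hχ
    obtain ⟨R', hR', -, hRψ⟩ := hs ψ hψ
    have h1 := hL χ hχ
    have h2 := hL ψ hψ
    rw [← hRχ] at h1
    rw [← hRψ] at h2
    rw [meanAt_const_mul, ← hRχ, ← hRψ, (char_orth R R' hR hR' L h1 h2).2 ?_, mul_zero]
    rw [hRχ, hRψ]
    exact hne.symm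
  · intro h
    exact absurd hχ h

theorem irreducible_sum (h : WeilBound G t i b) {θ : ℝ} (hθ : MeanSquare G t i b θ)
    (s : Finset ((Ω ≃ₐ[ℚ] Ω) → ℂ)) (m : ((Ω ≃ₐ[ℚ] Ω) → ℂ) → ℤ)
    (hs : ∀ χ ∈ s, IsIrrChar (⊤ : IntermediateField ℚ Ω) χ ∧ OrdVirt G t i χ (m χ)) :
    ∑ χ ∈ s, (m χ : ℝ) ^ 2 ≤ θ ∧
      (∑ χ ∈ s, (m χ : ℝ) ^ 2 = θ → ∀ g, ‖∑ χ ∈ s, (m χ : ℂ) * χ g‖ ≤ b) := by
  obtain ⟨L, h1, h2, h3⟩ := exists_level_char s (fun χ => χ) fun χ hχ => (hs χ hχ).2.level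
  have hL : Lvl L fun g => ∑ χ ∈ s, (m χ : ℂ) * χ g :=
    Lvl.sum s fun χ hχ => (h3 χ hχ).comp fun z => (m χ : ℂ) * z
  set N : ℝ := ∑ χ ∈ s, (m χ : ℝ) ^ 2 with hN
  have h4 := inner_irr s (fun χ => (m χ : ℂ)) (fun χ hχ => (hs χ hχ).1) L h3
  have h5 : ∑ χ ∈ s, (m χ : ℂ) * conj (m χ : ℂ) = (N : ℝ) := by
    rw [hN]
    push_cast
    refine Finset.sum_congr rfl fun χ _ => ?_
    rw [map_intCast, sq]
  rw [h5] at h4
  obtain ⟨h6, h7⟩ := family_square h hθ s (fun χ => χ) m (fun χ => (m χ : ℂ))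
    (fun χ hχ => (hs χ hχ).2) L hL h4
  have h8 : ∑ χ ∈ s, (m χ : ℂ) * (m χ : ℂ) = (N : ℝ) := by
    rw [hN]
    push_cast
    exact Finset.sum_congr rfl fun χ _ => (sq _).symm
  have hN0 : 0 ≤ N := Finset.sum_nonneg fun χ _ => sq_nonneg _
  rw [h8, Complex.norm_real, Real.norm_of_nonneg hN0] at h6 h7
  rcases hN0.eq_or_lt with h0 | h0
  · have hθ0 : 0 ≤ θ := by
      obtain ⟨d, hd, had⟩ := hθ.mvo (Nat.cast_nonneg b) h
      exact hd.nonneg ∅ fun p _ => (sq_nonneg _).trans (had p)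
    refine ⟨by rw [← h0]; exact hθ0, fun _ g => ?_⟩
    have h9 : ∀ χ ∈ s, (m χ : ℂ) * χ g = 0 := by
      intro χ hχ
      have h10 := (Finset.sum_eq_zero_iff_of_nonneg (fun χ _ => sq_nonneg (m χ : ℝ))).1 h0.symm χ hχ
      have h11 : (m χ : ℝ) = 0 := by simpa using h10
      have h12 : (m χ : ℂ) = 0 := by exact_mod_cast h11
      rw [h12, zero_mul]
    rw [Finset.sum_eq_zero h9, norm_zero]
    exact Nat.cast_nonneg b
  · have h9 : N ≤ θ := by nlinarith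
    refine ⟨h9, fun heq g => ?_⟩
    by_contra hcon
    push Not at hcon
    have h10 := h7 ⟨g, ?_⟩
    · rw [heq] at h10
      rw [sq] at h10
      exact lt_irrefl _ h10
    · rw [← heq, mul_comm]
      have h11 : (b : ℝ) ^ 2 < ‖∑ χ ∈ s, (m χ : ℂ) * χ g‖ ^ 2 :=
        pow_lt_pow_left₀ hcon (Nat.cast_nonneg b) two_ne_zero
      exact mul_lt_mul_of_pos_left h11 h0

/-- the number of the irreducible twists with a zero or a pole -/
theorem irreducible_card (h : WeilBound G t i b) {θ : ℝ} (hθ : MeanSquare G t i b θ) :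
    {χ | IsIrrChar (⊤ : IntermediateField ℚ Ω) χ ∧ ∃ m : ℤ, OrdVirt G t i χ m ∧ m ≠ 0}.encard ≤
      (⌊θ⌋₊ : ℕ) := by
  classical
  by_contra hcon
  push Not at hcon
  obtain ⟨s, hs, hcard⟩ := Set.exists_subset_encard_eq (Order.add_one_le_of_lt hcon)
  have hfin : s.Finite := by
    refine Set.finite_of_encard_le_coe (k := ⌊θ⌋₊ + 1) ?_
    rw [hcard]
    push_cast
    exact le_rfl
  have hs' : ∀ χ ∈ hfin.toFinset, ∃ m : ℤ, OrdVirt G t i χ m ∧ m ≠ 0 := fun χ hχ =>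
    (hs (hfin.mem_toFinset.1 hχ)).2
  choose! m hm using hs'
  have h1 := (irreducible_sum (Ω := Ω) h hθ hfin.toFinset m fun χ hχ =>
    ⟨(hs (hfin.mem_toFinset.1 hχ)).1, (hm χ hχ).1⟩).1
  have h2 : (hfin.toFinset.card : ℝ) ≤ ∑ χ ∈ hfin.toFinset, (m χ : ℝ) ^ 2 := by
    rw [Finset.card_eq_sum_ones]
    push_cast
    refine Finset.sum_le_sum fun χ hχ => ?_
    have h3 : (1 : ℤ) ≤ m χ ^ 2 := by
      have h4 := (hm χ hχ).2
      have h5 : 0 < m χ ^ 2 := by positivity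
      omega
    exact_mod_cast h3
  have h3 : hfin.toFinset.card = ⌊θ⌋₊ + 1 := by
    rw [hfin.encard_eq_coe_toFinset_card] at hcard
    exact_mod_cast hcard
  rw [h3] at h2
  have h4 := Nat.lt_floor_add_one θ
  push_cast at h2
  linarith

/-- the norm of the permutation character minus one -/
lemma mean_fix_sub_one (K L : IntermediateField ℚ Ω) [NumberField K] [NumberField L] [IsGalois ℚ L]
    (h : K ≤ L) : ∃ N : ℝ, N ≤ embRank K Ω - 1 ∧ meanAt L (fun g =>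
      ((fixEmb K Ω g : ℂ) - 1) * conj ((fixEmb K Ω g : ℂ) - 1)) = N := by
  have e1 : (fun g : Ω ≃ₐ[ℚ] Ω => ((fixEmb K Ω g : ℂ) - 1) * conj ((fixEmb K Ω g : ℂ) - 1)) =
      fun g => (fun σ : L ≃ₐ[ℚ] L => (((pcf L K σ - 1) ^ 2 : ℝ) : ℂ))
        (AlgEquiv.restrictNormalHom L g) := by
    funext g
    beta_reduce
    rw [fixEmb_restrict h]
    unfold pcf
    rw [map_sub, map_one, Complex.conj_natCast]
    push_cast
    ring
  refine ⟨(∑ σ : L ≃ₐ[ℚ] L, (pcf L K σ - 1) ^ 2) / Fintype.card (L ≃ₐ[ℚ] L), ?_, ?_⟩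
  · have h0 : (0 : ℝ) < Fintype.card (L ≃ₐ[ℚ] L) := by exact_mod_cast Fintype.card_pos
    rw [div_le_iff₀ h0]
    have h1 := inner_pcf_self_le (M := L) h
    have h2 := sum_pcf (M := L) K
    have h3 : ∑ σ : L ≃ₐ[ℚ] L, (pcf L K σ - 1) ^ 2 = ∑ σ : L ≃ₐ[ℚ] L, pcf L K σ * pcf L K σ -
        2 * ∑ σ : L ≃ₐ[ℚ] L, pcf L K σ + Fintype.card (L ≃ₐ[ℚ] L) := by
      rw [Finset.mul_sum, ← Finset.sum_sub_distrib, ← Finset.card_univ, Finset.card_eq_sum_ones]
      push_cast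
      rw [← Finset.sum_add_distrib]
      exact Finset.sum_congr rfl fun σ _ => by ring
    rw [h3, h2]
    nlinarith
  · rw [e1, meanAt_restrict L fun σ : L ≃ₐ[ℚ] L => (((pcf L K σ - 1) ^ 2 : ℝ) : ℂ)]
    push_cast
    rfl

omit [IsAlgClosure ℚ Ω] in
lemma fixEmb_one_eq [IsAlgClosed Ω] (K : IntermediateField ℚ Ω) [NumberField K] :
    fixEmb K Ω 1 = Module.finrank ℚ K := by
  have h1 : fixEmb K Ω 1 = Nat.card (K →+* Ω) := by
    unfold fixEmb
    exact Nat.card_congr (Equiv.subtypeUnivEquiv fun σ x => rfl)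
  rw [h1, Nat.card_congr (RingHom.equivRatAlgHom K Ω), Nat.card_eq_fintype_card]
  exact AlgHom.card ℚ K Ω

/-- **Number fields.** -/
theorem fieldBound (h : WeilBound G t i b) {θ : ℝ} (hθ : MeanSquare G t i b θ) :
    FieldBound Ω G t i b θ := by
  intro K _ m hm
  have hac : IsAlgClosed Ω := IsAlgClosure.isAlgClosed ℚ
  obtain ⟨d, hd, had⟩ := hθ.mvo (Nat.cast_nonneg b) h
  have hθ0 : 0 ≤ θ := hd.nonneg ∅ fun p _ => (sq_nonneg _).trans (had p)
  have h1 := nc_nf K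
  have h2 := nc_gal K
  obtain ⟨N, hN, hmean⟩ := mean_fix_sub_one K (NC K) (le_nc K)
  have e2 : ∀ g : Ω ≃ₐ[ℚ] Ω, ∑ j ∈ {()}, (fun _ : Unit => (1 : ℂ)) j *
      (fun _ : Unit => fun g => (fixEmb K Ω g : ℂ) - 1) j g = (fixEmb K Ω g : ℂ) - 1 := by
    intro g
    rw [Finset.sum_singleton, one_mul]
  obtain ⟨h3, h4⟩ := family_square h hθ {()} (fun _ => fun g => (fixEmb K Ω g : ℂ) - 1)
    (fun _ => m) (fun _ => 1) (fun _ _ => hm) (N := N) (NC K) (by
      simp only [Finset.sum_singleton, one_mul]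
      exact (lvl_fixEmb (le_nc K)).comp fun z => z - 1) (by
      simp only [Finset.sum_singleton, one_mul]
      exact hmean)
  simp only [Finset.sum_singleton, one_mul] at h3 h4
  rw [Complex.norm_intCast, sq_abs] at h3 h4
  have h5 : θ * N ≤ θ * (embRank K Ω - 1) := mul_le_mul_of_nonneg_left hN hθ0
  refine ⟨h3.trans h5, fun h6 => (h4 ⟨1, ?_⟩).trans_le h5⟩
  rw [fixEmb_one_eq]
  have h7 : ‖((Module.finrank ℚ K : ℕ) : ℂ) - 1‖ ^ 2 = ((Module.finrank ℚ K : ℝ) - 1) ^ 2 := by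
    have e4 : ((Module.finrank ℚ K : ℕ) : ℂ) - 1 = (((Module.finrank ℚ K : ℝ) - 1 : ℝ) : ℂ) := by
      push_cast
      rfl
    rw [e4, Complex.norm_real, Real.norm_eq_abs, sq_abs]
  rw [h7]
  exact (mul_le_mul_of_nonneg_left hN (sq_nonneg _)).trans_lt h6

/-- the mean value of `|fix_K - 1|` -/
lemma mean_abs_fix (K L : IntermediateField ℚ Ω) [NumberField K] [NumberField L] [IsGalois ℚ L]
    (h : K ≤ L) : (meanReal L fun g => ‖(fixEmb K Ω g : ℂ) - 1‖) =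
      (∑ σ : L ≃ₐ[ℚ] L, |pcf L K σ - 1|) / Fintype.card (L ≃ₐ[ℚ] L) := by
  unfold meanReal
  have e1 : (fun g : Ω ≃ₐ[ℚ] Ω => ((‖(fixEmb K Ω g : ℂ) - 1‖ : ℝ) : ℂ)) =
      fun g => (fun σ : L ≃ₐ[ℚ] L => ((|pcf L K σ - 1| : ℝ) : ℂ))
        (AlgEquiv.restrictNormalHom L g) := by
    funext g
    beta_reduce
    rw [fixEmb_restrict h]
    unfold pcf
    have e2 : ((pc (subf L K).fixingSubgroup (AlgEquiv.restrictNormalHom L g) : ℕ) : ℂ) - 1 =
        (((pc (subf L K).fixingSubgroup (AlgEquiv.restrictNormalHom L g) : ℝ) - 1 : ℝ) : ℂ) := by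
      push_cast
      rfl
    rw [e2, Complex.norm_real, Real.norm_eq_abs]
  rw [e1, meanAt_restrict L fun σ : L ≃ₐ[ℚ] L => ((|pcf L K σ - 1| : ℝ) : ℂ)]
  have e3 : (∑ σ : L ≃ₐ[ℚ] L, ((|pcf L K σ - 1| : ℝ) : ℂ)) / (Fintype.card (L ≃ₐ[ℚ] L) : ℂ) =
      (((∑ σ : L ≃ₐ[ℚ] L, |pcf L K σ - 1|) / (Fintype.card (L ≃ₐ[ℚ] L) : ℝ) : ℝ) : ℂ) := by
    push_cast
    rfl
  rw [e3, Complex.ofReal_re]

omit [IsAlgClosure ℚ Ω] in
/-- an automorphism which is not trivial on `L` fixes at most one embedding -/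
lemma fixEmb_le_one {K L : IntermediateField ℚ Ω} [NumberField K]
    (hgen : ∀ σ τ : K →ₐ[ℚ] Ω, σ ≠ τ → σ.fieldRange ⊔ τ.fieldRange = L) (g : Ω ≃ₐ[ℚ] Ω)
    (hg : g ∉ L.fixingSubgroup) : fixEmb K Ω g ≤ 1 := by
  by_contra hcon
  push Not at hcon
  have hfinΩ : Finite (K →+* Ω) := Finite.of_equiv _ (RingHom.equivRatAlgHom K Ω).symm
  unfold fixEmb at hcon
  rw [Finite.one_lt_card_iff_nontrivial] at hcon
  obtain ⟨⟨σ, hσ⟩, ⟨τ, hτ⟩, hne⟩ := hcon
  have hne' : RingHom.equivRatAlgHom K Ω σ ≠ RingHom.equivRatAlgHom K Ω τ := fun h =>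
    hne (Subtype.ext ((RingHom.equivRatAlgHom K Ω).injective h))
  have h1 := hgen _ _ hne'
  apply hg
  rw [← h1, IntermediateField.fixingSubgroup_sup, Subgroup.mem_inf,
    IntermediateField.mem_fixingSubgroup_iff, IntermediateField.mem_fixingSubgroup_iff]
  constructor
  · rintro y ⟨z, rfl⟩
    exact hσ z
  · rintro y ⟨z, rfl⟩
    exact hτ z

/-- the mean value of `|fix_K - 1|` for a Frobenius field -/
lemma sum_abs_frobenius [IsAlgClosed Ω] (K L : IntermediateField ℚ Ω) [NumberField K]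
    [NumberField L] [IsGalois ℚ L] (h : K ≤ L)
    (hgen : ∀ σ τ : K →ₐ[ℚ] Ω, σ ≠ τ → σ.fieldRange ⊔ τ.fieldRange = L) :
    ∑ σ : L ≃ₐ[ℚ] L, |pcf L K σ - 1| = 2 * (Module.finrank ℚ K - 1) := by
  classical
  have hone : pcf L K 1 = Module.finrank ℚ K := by
    have h1 := fixEmb_restrict h (1 : Ω ≃ₐ[ℚ] Ω)
    rw [map_one, fixEmb_one_eq] at h1
    unfold pcf
    rw [← h1]
  have hle : ∀ σ : L ≃ₐ[ℚ] L, σ ≠ 1 → pcf L K σ ≤ 1 := by
    intro σ hσ
    obtain ⟨g, rfl⟩ := AlgEquiv.restrictNormalHom_surjective (F := ℚ) (K₁ := L) Ω σ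
    have h2 := fixEmb_le_one hgen g fun hg => hσ ((restrict_ker L g).2 hg)
    rw [fixEmb_restrict h] at h2
    unfold pcf
    exact_mod_cast h2
  have hn : (1 : ℝ) ≤ Module.finrank ℚ K := by
    exact_mod_cast Module.finrank_pos (R := ℚ) (M := K)
  have h3 := sum_pcf (M := L) K
  rw [← Finset.add_sum_erase _ _ (Finset.mem_univ (1 : L ≃ₐ[ℚ] L))] at h3 ⊢
  have h4 : ∑ σ ∈ (Finset.univ : Finset (L ≃ₐ[ℚ] L)).erase 1, |pcf L K σ - 1| =
      ∑ σ ∈ (Finset.univ : Finset (L ≃ₐ[ℚ] L)).erase 1, (1 - pcf L K σ) :=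
    Finset.sum_congr rfl fun σ hσ => by
      rw [abs_of_nonpos (by linarith [hle σ (Finset.ne_of_mem_erase hσ)])]
      ring
  have h5 : (((Finset.univ : Finset (L ≃ₐ[ℚ] L)).erase 1).card : ℝ) =
      Fintype.card (L ≃ₐ[ℚ] L) - 1 := by
    rw [Finset.card_erase_of_mem (Finset.mem_univ _), Finset.card_univ,
      Nat.cast_sub Fintype.card_pos]
    push_cast
    rfl
  rw [h4, Finset.sum_sub_distrib, Finset.sum_const, nsmul_eq_mul, mul_one, h5, hone,
    abs_of_nonneg (by linarith)]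
  rw [hone] at h3
  linarith

/-- **Frobenius fields.** -/
theorem frobeniusOrders (h : WeilBound G t i b) : FrobeniusOrders Ω G t i b := by
  intro K L _ _ _ m hgen hlt hm
  have hcl : IsAlgClosed Ω := IsAlgClosure.isAlgClosed ℚ
  have hKL : K ≤ L := by
    by_cases hex : ∃ τ : K →ₐ[ℚ] Ω, K.val ≠ τ
    · obtain ⟨τ, hτ⟩ := hex
      rw [← hgen _ _ hτ]
      exact (IntermediateField.fieldRange_val (S := K)).ge.trans le_sup_left
    · push Not at hex
      have h1 : Fintype.card (K →ₐ[ℚ] Ω) ≤ 1 := Fintype.card_le_one_iff.2 fun a b =>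
        (hex a).symm.trans (hex b)
      rw [AlgHom.card ℚ K Ω] at h1
      have h2 : Module.finrank ℚ K = 1 := le_antisymm h1 Module.finrank_pos
      rw [IntermediateField.finrank_eq_one_iff] at h2
      rw [h2]
      exact bot_le
  have h1 := classBound h (Or.inl rfl : MeanSquare G t i b ((b : ℝ) ^ 2)) L Unit {()}
    (fun _ => fun g => (fixEmb K Ω g : ℂ) - 1) (fun _ => m) (fun _ => 1) (fun _ => 0)
    (fun _ _ => hm) (by
      simp only [Finset.sum_singleton, one_mul]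
      exact (lvl_fixEmb hKL).comp fun z => z - 1) (fun _ _ _ => rfl) fun _ _ => rfl
  simp only [Finset.sum_singleton, one_mul, sub_zero, norm_zero] at h1
  have h2 : (meanReal L fun _ : Ω ≃ₐ[ℚ] Ω => (0 : ℝ) ^ 2) = 0 := by
    have := finite_quot L
    cases nonempty_fintype ((Ω ≃ₐ[ℚ] Ω) ⧸ L.fixingSubgroup)
    unfold meanReal
    rw [meanAt_eq]
    simp
  rw [h2, mul_zero, Real.sqrt_zero, zero_add, mean_abs_fix K _ hKL,
    sum_abs_frobenius K L hKL hgen, Complex.norm_intCast] at h1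
  have h5 : Fintype.card (L ≃ₐ[ℚ] L) = Module.finrank ℚ L := by
    rw [← Nat.card_eq_fintype_card]
    exact IsGalois.card_aut_eq_finrank ℚ L
  rw [h5] at h1
  have hL0 : (0 : ℝ) < Module.finrank ℚ L := by exact_mod_cast Module.finrank_pos (R := ℚ) (M := L)
  have hn : 1 ≤ Module.finrank ℚ K := Module.finrank_pos
  have h7 : (b : ℝ) * (2 * (Module.finrank ℚ K - 1) / Module.finrank ℚ L) < 1 := by
    have h8 : (2 : ℝ) * b * (Module.finrank ℚ K - 1) < Module.finrank ℚ L := by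
      have h9 : ((2 * b * (Module.finrank ℚ K - 1) : ℕ) : ℝ) < Module.finrank ℚ L := by
        exact_mod_cast hlt
      rw [Nat.cast_mul, Nat.cast_sub hn] at h9
      push_cast at h9
      exact h9
    rw [← mul_div_assoc, div_lt_one hL0]
    linarith
  have h8 : |m| < 1 := by
    have h9 : ((|m| : ℤ) : ℝ) < 1 := by
      push_cast
      exact h1.trans_lt h7
    exact_mod_cast h9
  rwa [Int.abs_lt_one_iff] at h8

/-- **Pure fields.** -/
theorem pureOrders (h : WeilBound G t i b) : PureOrders Ω G t i b := by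
  intro K _ m q c α hq hqb hc hα hK hm
  have hcl : IsAlgClosed Ω := IsAlgClosure.isAlgClosed ℚ
  obtain ⟨ζ, hζ⟩ : ∃ ζ : Ω, IsPrimitiveRoot ζ q := by
    have : NeZero (q : Ω) := ⟨by exact_mod_cast hq.ne_zero⟩
    obtain ⟨ζ, hζ⟩ := IsAlgClosed.exists_root (Polynomial.cyclotomic q Ω)
      (Polynomial.degree_cyclotomic_pos q Ω hq.pos).ne'
    exact ⟨ζ, Polynomial.isRoot_cyclotomic_iff.mp hζ⟩
  subst hK
  set K := IntermediateField.adjoin ℚ {α} with hKdef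
  set P := IntermediateField.adjoin ℚ {ζ} with hPdef
  have hPn : NumberField P := by
    have : FiniteDimensional ℚ P := Module.finite_of_finrank_pos (by
      rw [hPdef, finrank_cyc hq hζ]
      have := hq.two_le
      omega)
    exact ⟨⟩
  have hKPn : NumberField (K ⊔ P : IntermediateField ℚ Ω) := by
    have h1 : FiniteDimensional ℚ (K ⊔ P : IntermediateField ℚ Ω) :=
      IntermediateField.finiteDimensional_sup K P
    exact ⟨⟩
  have hMn : NumberField (NC (K ⊔ P)) := nc_nf _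
  have hMg : IsGalois ℚ (NC (K ⊔ P)) := nc_gal _
  have hKM : K ≤ NC (K ⊔ P) := le_sup_left.trans (le_nc _)
  have hPM : P ≤ NC (K ⊔ P) := le_sup_right.trans (le_nc _)
  have h1 := classBound h (Or.inl rfl : MeanSquare G t i b ((b : ℝ) ^ 2)) (NC (K ⊔ P)) Unit {()}
    (fun _ => fun g => (fixEmb K Ω g : ℂ) - 1) (fun _ => m) (fun _ => 1) (fun _ => 0)
    (fun _ _ => hm) (by
      simp only [Finset.sum_singleton, one_mul]
      exact (lvl_fixEmb hKM).comp fun z => z - 1) (fun _ _ _ => rfl) fun _ _ => rfl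
  simp only [Finset.sum_singleton, one_mul, sub_zero, norm_zero] at h1
  have h2 : (meanReal (NC (K ⊔ P)) fun _ : Ω ≃ₐ[ℚ] Ω => (0 : ℝ) ^ 2) = 0 := by
    have := finite_quot (NC (K ⊔ P))
    cases nonempty_fintype ((Ω ≃ₐ[ℚ] Ω) ⧸ (NC (K ⊔ P)).fixingSubgroup)
    unfold meanReal
    rw [meanAt_eq]
    simp
  rw [h2, mul_zero, Real.sqrt_zero, zero_add, mean_abs_fix K _ hKM,
    pure_mean (M := NC (K ⊔ P)) hq hc hα hζ hKM hPM, Complex.norm_intCast] at h1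
  have hq0 : (0 : ℝ) < q := by exact_mod_cast hq.pos
  have h7 : (b : ℝ) * (2 / q) < 1 := by
    have h8 : (2 : ℝ) * b < q := by exact_mod_cast hqb
    rw [← mul_div_assoc, div_lt_one hq0]
    linarith
  have h8 : |m| < 1 := by
    have h9 : ((|m| : ℤ) : ℝ) < 1 := by
      push_cast
      exact h1.trans_lt h7
    exact_mod_cast h9
  rwa [Int.abs_lt_one_iff] at h8

end

section

variable {Ω : Type} [Field Ω] [CharZero Ω] [IsAlgClosure ℚ Ω]

lemma Eigenform.weil (f : Eigenform) (i : ℕ) : WeilBound (fun _ => True) (f.system i) i (2 : ℕ) := by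
  intro p _ k hk
  unfold Eigenform.system
  rw [norm_mul, Complex.norm_real, Real.norm_of_nonneg (pow_nonneg (Real.sqrt_nonneg _) _)]
  refine mul_le_mul_of_nonneg_right ?_ (pow_nonneg (Real.sqrt_nonneg _) _)
  exact_mod_cast Nf.trace_norm_le f p.2.ne_one p.2.ne_zero hk

lemma Eigenform.meanSquare (f : Eigenform) (i : ℕ) :
    MeanSquare (fun _ => True) (f.system i) i (2 : ℕ) 1 := by
  refine Or.inr (Or.inr ⟨1, fun _ => f, 1, fun j j' hj => absurd (Subsingleton.elim j j') hj,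
    fun p _ => ?_, by norm_num⟩)
  unfold Eigenform.system
  rw [Fin.sum_univ_one, pow_one, norm_mul, Complex.norm_real,
    Real.norm_of_nonneg (pow_nonneg (Real.sqrt_nonneg _) _), one_mul]

lemma Eigenform.nt_eq (f : Eigenform) (i : ℕ) (p : Nat.Primes) :
    nt (fun _ => True) (f.system i) i p = f.trace (p : ℕ) 1 := by
  have h0 : (0 : ℝ) < ((p : ℕ) : ℝ) := by exact_mod_cast p.2.pos
  have h3 : ((Real.sqrt ((p : ℕ) : ℝ) ^ i : ℝ) : ℂ) ≠ 0 := by
    exact_mod_cast (pow_pos (Real.sqrt_pos.mpr h0) i).ne'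
  unfold nt Eigenform.system
  rw [if_pos trivial, pow_one, mul_div_cancel_right₀ _ h3]

/-- the traces of an eigenform are close to minus the character of an exceptional twist -/
theorem Eigenform.close (f : Eigenform) (i : ℕ) {R : ArtinRep Ω} (hR : R.Irr) {m : ℤ}
    (hm : OrdVirt (fun _ => True) (f.system i) i R.char m) (h1 : |m| = 1)
    (Fr : Nat.Primes → (Ω ≃ₐ[ℚ] Ω)) (hFr : ∀ p : Nat.Primes, IsFrob (p : ℕ) (Fr p)) :
    MeanZero fun p => ‖f.trace (p : ℕ) 1 + m * R.char (Fr p)‖ ^ 2 := by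
  obtain ⟨L, h2, h3, h4⟩ := hm.level
  have hm1 : (m : ℝ) ^ 2 = 1 := by
    have e : m ^ 2 = 1 := by rw [← sq_abs, h1, one_pow]
    exact_mod_cast e
  have e1 : MVo (fun p : Nat.Primes => ‖f.trace (p : ℕ) 1‖ ^ 2) 1 := by
    have h5 := mvo_forms (fun _ : Fin 1 => f) fun j j' hj => absurd (Subsingleton.elim j j') hj
    simpa using h5
  have e2 := ((hm.mvc (f.weil i) hFr).re).const_mul (2 * m : ℝ)
  have e3 : MVo (fun p => ‖R.char (Fr p)‖ ^ 2) 1 := by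
    have h5 := chebΩ Fr hFr L (fun g => R.char g * conj (R.char g))
      (h4.comp₂ h4 fun z w => z * conj w) (R.isCl_char.comp₂ R.isCl_char fun z w => z * conj w) 0
    rw [if_pos rfl, (char_orth R R hR hR L h4 h4).1 rfl] at h5
    refine h5.re.congr ∅ fun p _ => ?_
    rw [pw_zero, mul_one, Complex.mul_conj, Complex.normSq_eq_norm_sq, Complex.ofReal_re]
  have e4 := (e1.add e2).add e3
  have e5 : (1 : ℝ) + 2 * m * (-(m : ℂ)).re + 1 = 0 := by
    rw [Complex.neg_re, Complex.intCast_re]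
    nlinarith
  rw [e5] at e4
  refine (e4.congr (d := fun p => ‖f.trace (p : ℕ) 1 + m * R.char (Fr p)‖ ^ 2) ∅ fun p _ => ?_).2
  have e6 : ‖f.trace (p : ℕ) 1 + m * R.char (Fr p)‖ ^ 2 = ‖f.trace (p : ℕ) 1‖ ^ 2 +
      ‖(m : ℂ) * R.char (Fr p)‖ ^ 2 +
        2 * (f.trace (p : ℕ) 1 * conj ((m : ℂ) * R.char (Fr p))).re := by
    rw [← Complex.normSq_eq_norm_sq, Complex.normSq_add, Complex.normSq_eq_norm_sq,
      Complex.normSq_eq_norm_sq]
  rw [e6, f.nt_eq, norm_mul, mul_pow, Complex.norm_intCast, sq_abs, hm1, map_mul, map_intCast]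
  have e7 : (f.trace (p : ℕ) 1 * ((m : ℂ) * conj (R.char (Fr p)))).re =
      m * (f.trace (p : ℕ) 1 * conj (R.char (Fr p))).re := by
    rw [← Complex.re_ofReal_mul]
    congr 1
    push_cast
    ring
  rw [e7]
  ring

omit [IsAlgClosure ℚ Ω] in
/-- the value at one of a character -/
lemma ArtinRep.char_one (R : ArtinRep Ω) : R.char 1 = R.n := by
  unfold ArtinRep.char
  rw [map_one]
  simp

/-- **Eigenforms.** -/
theorem eigenformOrders (f : Eigenform) (i : ℕ) : EigenformOrders Ω f i := by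
  have hw := f.weil i
  have hθ := f.meanSquare i
  refine ⟨?_, ?_, ?_⟩
  · have h1 := irreducible_card (Ω := Ω) hw hθ
    rw [Nat.floor_one, Nat.cast_one] at h1
    exact h1
  · intro R m hR hm hm0
    have hirr : IsIrrChar (⊤ : IntermediateField ℚ Ω) R.char := by
      refine ⟨R, hR, fun g hg => ?_, rfl⟩
      rw [IntermediateField.fixingSubgroup_top, Subgroup.mem_bot] at hg
      rw [hg, map_one]
    obtain ⟨h1, h2⟩ := irreducible_sum hw hθ {R.char} (fun _ => m) fun χ hχ => by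
      rw [Finset.mem_singleton] at hχ
      subst hχ
      exact ⟨hirr, hm⟩
    rw [Finset.sum_singleton] at h1 h2
    have h1' : m ^ 2 ≤ 1 := by exact_mod_cast h1
    have h3 : |m| = 1 := by
      have e1 : 0 < |m| := abs_pos.2 hm0
      have e2 : |m| ^ 2 ≤ 1 := by rwa [sq_abs]
      nlinarith
    have h4 : (m : ℝ) ^ 2 = 1 := by
      have e : m ^ 2 = 1 := by rw [← sq_abs, h3, one_pow]
      exact_mod_cast e
    refine ⟨?_, h3, fun Fr hFr => f.close i hR hm h3 Fr hFr⟩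
    have h5 := h2 h4 1
    rw [Finset.sum_singleton, norm_mul, R.char_one, Complex.norm_intCast, Complex.norm_natCast] at h5
    have h6 : |(m : ℝ)| = 1 := by exact_mod_cast h3
    rw [h6, one_mul] at h5
    exact_mod_cast h5
  · intro K _ m hr hn hm
    obtain ⟨-, h2⟩ := fieldBound (Ω := Ω) hw hθ K m hm
    have h3 : (embRank K Ω : ℝ) ≤ 2 := by exact_mod_cast hr
    have h4 : (4 : ℝ) ≤ (Module.finrank ℚ K : ℝ) := by exact_mod_cast hn
    have h5 := h2 (by push_cast; nlinarith)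
    have h6 : (m : ℝ) ^ 2 < 1 := by nlinarith
    have h7 : m ^ 2 < 1 := by exact_mod_cast h6
    by_contra hne
    have h9 : 0 < m ^ 2 := by positivity
    omega

end

end Pool.Agent.Work.MP_2b9663_nt
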