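import Pool.Agent.Work.MP_2b9663_nt.Ch.MainC

set_option autoImplicit false

/-!
The mean square inequality for twists, and the case of equality.
-/

namespace Pool.Agent.Work.MP_2b9663_nt

open NumberField Filter Topology ComplexConjugate

section

variable {Ω : Type} [Field Ω] [CharZero Ω] [IsAlgClosure ℚ Ω]

omit [IsAlgClosure ℚ Ω] in
/-- the values of a function at the representatives of the cosets -/
lemma exists_out {L : IntermediateField ℚ Ω} {φ : (Ω ≃ₐ[ℚ] Ω) → ℂ} (hL : Lvl L φ) (g : Ω ≃ₐ[ℚ] Ω) :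
    ∃ q : (Ω ≃ₐ[ℚ] Ω) ⧸ L.fixingSubgroup, φ q.out = φ g := by
  refine ⟨(g : (Ω ≃ₐ[ℚ] Ω) ⧸ L.fixingSubgroup), ?_⟩
  have h1 : g⁻¹ * (g : (Ω ≃ₐ[ℚ] Ω) ⧸ L.fixingSubgroup).out ∈ L.fixingSubgroup :=
    QuotientGroup.leftRel_apply.1 (Quotient.exact (Quotient.out_eq _).symm)
  have h2 := hL g _ h1
  rw [mul_inv_cancel_left] at h2
  exact h2

open Classical in
/-- the density of the Frobenius elements at which `φ` has the same value as at `g` is positive -/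
lemma density_pos (L : IntermediateField ℚ Ω) [NumberField L] {φ : (Ω ≃ₐ[ℚ] Ω) → ℂ}
    (hL : Lvl L φ) (g : Ω ≃ₐ[ℚ] Ω) :
    0 < (meanAt L fun h => ((if φ h = φ g then 1 else 0 : ℝ) : ℂ)).re := by
  have := finite_quot L
  cases nonempty_fintype ((Ω ≃ₐ[ℚ] Ω) ⧸ L.fixingSubgroup)
  rw [meanAt_real L fun h => if φ h = φ g then 1 else 0]
  refine div_pos ?_ (by exact_mod_cast Fintype.card_pos)
  obtain ⟨q, hq⟩ := exists_out hL g
  refine Finset.sum_pos' (fun q _ => ?_) ⟨q, Finset.mem_univ _, ?_⟩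
  · split_ifs <;> norm_num
  · rw [if_pos hq]
    norm_num

/-- **The mean square inequality and the case of equality.** -/
theorem square_class {a : Nat.Primes → ℂ} {b θ : ℝ} (hb : 0 ≤ b) (ha : ∀ p, ‖a p‖ ≤ b)
    {d : Nat.Primes → ℝ} (hd : MVo d θ) (T : Finset Nat.Primes) (had : ∀ p, p ∉ T → ‖a p‖ ^ 2 ≤ d p)
    (Fr : Nat.Primes → (Ω ≃ₐ[ℚ] Ω)) (hFr : ∀ p : Nat.Primes, IsFrob (p : ℕ) (Fr p))
    (L : IntermediateField ℚ Ω) [NumberField L] [IsGalois ℚ L] {φ : (Ω ≃ₐ[ℚ] Ω) → ℂ}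
    (hL : Lvl L φ) (hφ : IsCl φ) {x : ℂ} {N : ℝ}
    (h : MVC (fun p => a p * conj (φ (Fr p))) x)
    (hN : meanAt L (fun g => φ g * conj (φ g)) = N) :
    ‖x‖ ^ 2 ≤ θ * N ∧ ((∃ g, b ^ 2 * N < θ * ‖φ g‖ ^ 2) → ‖x‖ ^ 2 < θ * N) := by
  classical
  have hN' : (meanAt L fun g => ((‖φ g‖ ^ 2 : ℝ) : ℂ)).re = N := by
    have e1 : (fun g => φ g * conj (φ g)) = fun g => ((‖φ g‖ ^ 2 : ℝ) : ℂ) := by
      funext g
      rw [Complex.mul_conj, Complex.normSq_eq_norm_sq]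
    rw [e1] at hN
    rw [hN, Complex.ofReal_re]
  -- the densities
  set κ : (Ω ≃ₐ[ℚ] Ω) → ℝ := fun g => (meanAt L fun h => ((if φ h = φ g then 1 else 0 : ℝ) : ℂ)).re
    with hκ
  have hκ0 : ∀ g, 0 < κ g := fun g => density_pos L hL g
  have hκm : ∀ g, MVo (fun p => if φ (Fr p) = φ g then 1 else 0) (κ g) := by
    intro g
    have h1 := chebΩ Fr hFr L (fun h => ((if φ h = φ g then 1 else 0 : ℝ) : ℂ))
      (hL.comp fun z => ((if z = φ g then 1 else 0 : ℝ) : ℂ))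
      (hφ.comp fun z => ((if z = φ g then 1 else 0 : ℝ) : ℂ)) 0
    rw [if_pos rfl] at h1
    refine h1.re.congr ∅ fun p _ => ?_
    rw [pw_zero, mul_one, Complex.ofReal_re]
  -- the mean square of `φ`
  have hsq : MVo (fun p => ‖φ (Fr p)‖ ^ 2) N := by
    have h1 := chebΩ Fr hFr L (fun g => ((‖φ g‖ ^ 2 : ℝ) : ℂ)) (hL.comp fun z => ((‖z‖ ^ 2 : ℝ) : ℂ))
      (hφ.comp fun z => ((‖z‖ ^ 2 : ℝ) : ℂ)) 0
    rw [if_pos rfl] at h1
    have h2 := h1.re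
    rw [hN'] at h2
    refine h2.congr ∅ fun p _ => ?_
    rw [pw_zero, mul_one, Complex.ofReal_re]
  have hNφ : ∀ g, ‖φ g‖ ^ 2 * κ g ≤ N := by
    intro g
    refine ((hκm g).const_mul (‖φ g‖ ^ 2)).mono hsq ∅ fun p _ => ?_
    split_ifs with hp
    · rw [hp, mul_one]
    · rw [mul_zero]
      positivity
  have hN0 : 0 ≤ N := (mul_nonneg (sq_nonneg _) (hκ0 1).le).trans (hNφ 1)
  -- the mean square of `N a - x φ`
  have hw : MVo (fun p => N ^ 2 * d p + (-2 * N) * (conj x * (a p * conj (φ (Fr p)))).re +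
      ‖x‖ ^ 2 * ‖φ (Fr p)‖ ^ 2) (N ^ 2 * θ + (-2 * N) * (conj x * x).re + ‖x‖ ^ 2 * N) :=
    ((hd.const_mul (N ^ 2)).add ((h.const_mul (conj x)).re.const_mul (-2 * N))).add
      (hsq.const_mul (‖x‖ ^ 2))
  have e1 : (conj x * x).re = ‖x‖ ^ 2 := by
    rw [mul_comm, Complex.mul_conj, Complex.normSq_eq_norm_sq, Complex.ofReal_re]
  rw [e1] at hw
  have e2 : N ^ 2 * θ + -2 * N * ‖x‖ ^ 2 + ‖x‖ ^ 2 * N = N * (θ * N - ‖x‖ ^ 2) := by ring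
  rw [e2] at hw
  have e3 : ∀ p, p ∉ T → ‖(N : ℂ) * a p - x * φ (Fr p)‖ ^ 2 ≤
      N ^ 2 * d p + (-2 * N) * (conj x * (a p * conj (φ (Fr p)))).re +
        ‖x‖ ^ 2 * ‖φ (Fr p)‖ ^ 2 := by
    intro p hp
    have h1 : ‖(N : ℂ) * a p - x * φ (Fr p)‖ ^ 2 = N ^ 2 * ‖a p‖ ^ 2 +
        (-2 * N) * (conj x * (a p * conj (φ (Fr p)))).re + ‖x‖ ^ 2 * ‖φ (Fr p)‖ ^ 2 := by
      rw [← Complex.normSq_eq_norm_sq, Complex.normSq_sub, Complex.normSq_mul, Complex.normSq_mul,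
        Complex.normSq_ofReal, Complex.normSq_eq_norm_sq, Complex.normSq_eq_norm_sq,
        Complex.normSq_eq_norm_sq, map_mul]
      have h2 : ((N : ℂ) * a p * (conj x * conj (φ (Fr p)))).re =
          N * (conj x * (a p * conj (φ (Fr p)))).re := by
        rw [← Complex.re_ofReal_mul]
        congr 1
        ring
      rw [h2]
      ring
    rw [h1]
    have h2 := mul_le_mul_of_nonneg_left (had p hp) (sq_nonneg N)
    linarith
  have hge : 0 ≤ N * (θ * N - ‖x‖ ^ 2) := hw.nonneg T fun p hp => (sq_nonneg _).trans (e3 p hp)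
  -- the case `N = 0`
  have hcase : N = 0 → (∀ g, φ g = 0) ∧ x = 0 := by
    intro h0
    have h1 : ∀ g, φ g = 0 := by
      intro g
      have h2 := hNφ g
      rw [h0] at h2
      have h3 : ‖φ g‖ ^ 2 ≤ 0 := by
        by_contra hcon
        push Not at hcon
        have := mul_pos hcon (hκ0 g)
        linarith
      have h4 : ‖φ g‖ = 0 := by nlinarith [norm_nonneg (φ g)]
      exact norm_eq_zero.1 h4
    refine ⟨h1, ?_⟩
    have h2 : MVC (fun _ : Nat.Primes => (0 : ℂ)) x := h.congr ∅ fun p _ => by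
      rw [h1, map_zero, mul_zero]
    exact h2.unique MVC.zero
  have hfirst : ‖x‖ ^ 2 ≤ θ * N := by
    rcases hN0.eq_or_lt with h0 | h0
    · obtain ⟨-, hx⟩ := hcase h0.symm
      rw [hx, ← h0]
      simp
    · have := nonneg_of_mul_nonneg_right hge h0
      linarith
  refine ⟨hfirst, ?_⟩
  rintro ⟨g, hg⟩
  rcases hN0.eq_or_lt with h0 | h0
  · obtain ⟨h1, -⟩ := hcase h0.symm
    rw [h1, ← h0] at hg
    simp at hg
  by_contra hcon
  push Not at hcon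
  have heq : ‖x‖ ^ 2 = θ * N := le_antisymm hfirst hcon
  have e4 : N * (θ * N - ‖x‖ ^ 2) = 0 := by rw [heq, sub_self, mul_zero]
  rw [e4] at hw
  -- `|x| |φ g| > b N`
  have h1 : (b * N) ^ 2 < (‖x‖ * ‖φ g‖) ^ 2 := by
    rw [mul_pow, mul_pow, heq]
    have := mul_lt_mul_of_pos_right hg h0
    nlinarith
  have h2 : b * N < ‖x‖ * ‖φ g‖ := by
    exact lt_of_pow_lt_pow_left₀ 2 (mul_nonneg (norm_nonneg _) (norm_nonneg _)) h1
  have h3 : (‖x‖ * ‖φ g‖ - b * N) ^ 2 * κ g ≤ 0 := by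
    refine ((hκm g).const_mul ((‖x‖ * ‖φ g‖ - b * N) ^ 2)).mono hw T fun p hp => ?_
    refine le_trans ?_ (e3 p hp)
    split_ifs with hp'
    · rw [mul_one]
      have h4 : ‖x‖ * ‖φ g‖ - b * N ≤ ‖(N : ℂ) * a p - x * φ (Fr p)‖ := by
        have h5 := norm_sub_norm_le (x * φ (Fr p)) ((N : ℂ) * a p)
        rw [norm_mul, norm_mul, Complex.norm_real, Real.norm_of_nonneg h0.le, hp'] at h5
        have h6 := mul_le_mul_of_nonneg_left (ha p) h0.le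
        rw [norm_sub_rev, hp']
        linarith
      exact pow_le_pow_left₀ (by linarith) h4 2
    · rw [mul_zero]
      exact sq_nonneg _
  have h4 : 0 < (‖x‖ * ‖φ g‖ - b * N) ^ 2 * κ g := mul_pos (by positivity) (hκ0 g)
  linarith

/-- optimisation of the parameter -/
lemma le_sqrt_of {x A B C : ℝ} (hA : 0 ≤ A) (hB : 0 ≤ B)
    (h : ∀ l : ℝ, 0 < l → x ≤ (l * A + B / l) / 2 + C) : x ≤ Real.sqrt (A * B) + C := by
  by_contra hcon
  push Not at hcon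
  have h1 : Real.sqrt (A * B) < x - C := by linarith
  have hy : 0 < x - C := (Real.sqrt_nonneg _).trans_lt h1
  have h2 : A * B < (x - C) ^ 2 := by
    have := pow_lt_pow_left₀ h1 (Real.sqrt_nonneg _) two_ne_zero
    rwa [Real.sq_sqrt (mul_nonneg hA hB)] at this
  rcases hA.eq_or_lt with h0 | h0
  · have h3 := h ((B + 1) / (x - C)) (by positivity)
    have h4 : B / ((B + 1) / (x - C)) < x - C := by
      rw [div_div_eq_mul_div, div_lt_iff₀ (by positivity)]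
      nlinarith
    rw [← h0, mul_zero, zero_add] at h3
    have h5 : 0 ≤ B / ((B + 1) / (x - C)) := by positivity
    linarith
  · have h3 := h ((x - C) / A) (by positivity)
    have h4 : (x - C) / A * A = x - C := div_mul_cancel₀ _ h0.ne'
    have h5 : B / ((x - C) / A) < x - C := by
      rw [div_div_eq_mul_div, div_lt_iff₀ hy]
      nlinarith
    rw [h4] at h3
    linarith

/-- **The sharp inequality**, for an approximation `ψ` of the class function `φ`. -/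
theorem sharp_class {a : Nat.Primes → ℂ} {b θ : ℝ} (ha : ∀ p, ‖a p‖ ≤ b)
    {d : Nat.Primes → ℝ} (hd : MVo d θ) (had : ∀ p, ‖a p‖ ^ 2 ≤ d p)
    (Fr : Nat.Primes → (Ω ≃ₐ[ℚ] Ω)) (hFr : ∀ p : Nat.Primes, IsFrob (p : ℕ) (Fr p))
    (L : IntermediateField ℚ Ω) [NumberField L] [IsGalois ℚ L] {φ ψ : (Ω ≃ₐ[ℚ] Ω) → ℂ}
    (hL : Lvl L φ) (hφ : IsCl φ) (hL' : Lvl L ψ) (hψ : IsCl ψ) {x : ℂ}
    (h : MVC (fun p => a p * conj (φ (Fr p))) x) :
    ‖x‖ ≤ Real.sqrt (θ * (meanAt L fun g => ((‖ψ g‖ ^ 2 : ℝ) : ℂ)).re) +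
      b * (meanAt L fun g => ((‖φ g - ψ g‖ : ℝ) : ℂ)).re := by
  have h1 : MVo (fun p => ‖ψ (Fr p)‖ ^ 2) (meanAt L fun g => ((‖ψ g‖ ^ 2 : ℝ) : ℂ)).re := by
    have h1 := chebΩ Fr hFr L (fun g => ((‖ψ g‖ ^ 2 : ℝ) : ℂ)) (hL'.comp fun z => ((‖z‖ ^ 2 : ℝ) : ℂ))
      (hψ.comp fun z => ((‖z‖ ^ 2 : ℝ) : ℂ)) 0
    rw [if_pos rfl] at h1
    refine h1.re.congr ∅ fun p _ => ?_
    rw [pw_zero, mul_one, Complex.ofReal_re]
  have h2 : MVo (fun p => ‖φ (Fr p) - ψ (Fr p)‖) (meanAt L fun g => ((‖φ g - ψ g‖ : ℝ) : ℂ)).re := by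
    have h1 := chebΩ Fr hFr L (fun g => ((‖φ g - ψ g‖ : ℝ) : ℂ))
      (hL.comp₂ hL' fun z w => ((‖z - w‖ : ℝ) : ℂ)) (hφ.comp₂ hψ fun z w => ((‖z - w‖ : ℝ) : ℂ)) 0
    rw [if_pos rfl] at h1
    refine h1.re.congr ∅ fun p _ => ?_
    rw [pw_zero, mul_one, Complex.ofReal_re]
  have hθ0 : 0 ≤ θ := hd.nonneg ∅ fun p _ => (sq_nonneg _).trans (had p)
  have h20 : 0 ≤ (meanAt L fun g => ((‖ψ g‖ ^ 2 : ℝ) : ℂ)).re := h1.nonneg ∅ fun p _ => sq_nonneg _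
  refine le_sqrt_of hθ0 h20 fun l hl => ?_
  have h3 := (((hd.const_mul l).add (h1.const_mul l⁻¹)).const_mul (1 / 2)).add (h2.const_mul b)
  have e1 : 1 / 2 * (l * θ + l⁻¹ * (meanAt L fun g => ((‖ψ g‖ ^ 2 : ℝ) : ℂ)).re) +
      b * (meanAt L fun g => ((‖φ g - ψ g‖ : ℝ) : ℂ)).re =
      (l * θ + (meanAt L fun g => ((‖ψ g‖ ^ 2 : ℝ) : ℂ)).re / l) / 2 +
        b * (meanAt L fun g => ((‖φ g - ψ g‖ : ℝ) : ℂ)).re := by
    rw [div_eq_inv_mul _ l]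
    ring
  rw [e1] at h3
  refine h.norm_le h3 ∅ fun p _ => ?_
  rw [norm_mul, RCLike.norm_conj]
  have h4 : ‖φ (Fr p)‖ ≤ ‖ψ (Fr p)‖ + ‖φ (Fr p) - ψ (Fr p)‖ := by
    have := norm_add_le (ψ (Fr p)) (φ (Fr p) - ψ (Fr p))
    rwa [add_sub_cancel] at this
  have h5 : ‖a p‖ * ‖φ (Fr p)‖ ≤ ‖a p‖ * ‖ψ (Fr p)‖ + b * ‖φ (Fr p) - ψ (Fr p)‖ := by
    have e2 := mul_le_mul_of_nonneg_left h4 (norm_nonneg (a p))
    have e3 := mul_le_mul_of_nonneg_right (ha p) (norm_nonneg (φ (Fr p) - ψ (Fr p)))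
    rw [mul_add] at e2
    linarith
  have h6 : ‖a p‖ * ‖ψ (Fr p)‖ ≤ 1 / 2 * (l * d p + l⁻¹ * ‖ψ (Fr p)‖ ^ 2) := by
    have e2 := mul_le_mul_of_nonneg_left (had p) hl.le
    have e3 : 2 * (‖a p‖ * ‖ψ (Fr p)‖) ≤ l * ‖a p‖ ^ 2 + l⁻¹ * ‖ψ (Fr p)‖ ^ 2 := by
      have e4 := mul_nonneg (inv_nonneg.2 hl.le) (sq_nonneg (l * ‖a p‖ - ‖ψ (Fr p)‖))
      have e5 : l⁻¹ * (l * ‖a p‖ - ‖ψ (Fr p)‖) ^ 2 =
          l * ‖a p‖ ^ 2 - 2 * (‖a p‖ * ‖ψ (Fr p)‖) + l⁻¹ * ‖ψ (Fr p)‖ ^ 2 := by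
        field_simp
        ring
      linarith
    linarith
  linarith

end

end Pool.Agent.Work.MP_2b9663_nt
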